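import Pool.Agent.H14Sort.Rec

/-! # MP_be3412_lc (Bose-Nelson): a lower bound for the size of sorting networks

`S(n) ≥ 1.266 n log₂ n - 12 n` for every `n ≥ 1`.

Proof. Let `N` be a sorting network on `m` lines and `x` a uniformly random input in `{0, 1}^m`.
The comparators of `N` which compare two ones (two zeros) form a sorting network on the ones (on the
zeros), so `|N| ≥ E[number of 0-1 collisions] + E[S(K) + S(m - K)]`, `K` the number of ones
(`restrict_sorts`, `main`).  If the probabilities of a one on the two lines are `p, q` before and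
`r ≤ s` after a comparator, then the probability of a collision is `s - r`, and `p q ≤ r` by the
FKG inequality.  There is a polynomial `φ` with `φ(0) = φ(1) = 0`, `φ(1/2) = 1.266` and
`φ(p) + φ(q) ≤ φ(r) + φ(s) + (s - r)` for all such `p, q, r, s` (`pot`); hence the expected number
of collisions is at least `1.266 m - ∑ φ(p_w)`, where `p_w` are the probabilities on the output
lines, and the last sum is `O(√m)` since the output is sorted (`coll_ge`). -/

namespace Pool.Agent.Results.MP_be3412_lc.SizeLowerBound

open Pool.Agent.H14Sort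

theorem result (n : ℕ) (hn : 1 ≤ n) :
    1.266 * (n * Real.logb 2 n) - 12 * n ≤ (S n : ℝ) := by
  have hne : {k | ∃ N : List (Fin n × Fin n), IsSorting N ∧ N.length = k}.Nonempty := by
    obtain ⟨N, hN⟩ := exists_sorting n
    exact ⟨N.length, N, hN, rfl⟩
  obtain ⟨N, ⟨hN, hs⟩, hlen⟩ := Nat.sInf_mem hne
  have h : SortsBy N (fun i : Fin n => (i : ℕ)) :=
    ⟨Fin.val_injective, hN, fun x i j hij => hs x (Fin.le_def.2 hij)⟩
  have h2 := main n (Fin n) (Fintype.card_fin n) N _ h
  have h3 : (N.length : ℝ) = (S n : ℝ) := by
    rw [hlen]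
    rfl
  rw [h3] at h2
  unfold g at h2
  have h4 : (0 : ℝ) ≤ 12 * √(n : ℝ) := by positivity
  linarith

end Pool.Agent.Results.MP_be3412_lc.SizeLowerBound
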